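import Pool.Agent.helper78.NLS.Spec

set_option autoImplicit false

open Complex Metric Set Filter Topology MeasureTheory MPS
open Pool.Agent.helper98.ILF Pool.Agent.helper16.Multibrot

noncomputable section

namespace NLS

theorem REP_om (n : ℕ) : ‖om n‖ = 1 := by
  unfold om
  rw [Complex.norm_exp]
  have : (2 * (Real.pi : ℂ) * Complex.I / (n : ℂ)).re = 0 := by
    have e : 2 * (Real.pi : ℂ) * Complex.I / (n : ℂ) = (((2 * Real.pi / n : ℝ)) : ℂ) * Complex.I := by
      push_cast; ring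
    rw [e]; simp
  rw [this, Real.exp_zero]

theorem REP (hALG : ALG_stmt) (hCTS : CTS_stmt) (hCTP : CTP_stmt) (hCTG : CTG_stmt) (hROT : ROT_stmt) (hLIO : LIO_stmt) : REP_stmt := by
  intro n R C g hn hR hg hsupp hgrow hsym
  obtain ⟨hA1, hA2, hA3, hA4, hA5, hA6, hA7, hA8, hA9, hA10⟩ := hALG
  have hSc : Sc R (db g) := ⟨(hA2 g hg).1, hsupp⟩
  have hCt : Sm (Ct (db g)) := (hCTS.2 R (db g) hSc).1
  have hdbCt : ∀ z, db (Ct (db g)) z = db g z := hCTP R (db g) hSc
  set E : ℂ → ℂ := fun z => g z - Ct (db g) z with hE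
  have hEsm : Sm E := (hA1 g (Ct (db g)) hg hCt).2.1
  have hdbE : ∀ z, db E z = 0 := by
    intro z
    have := ((hA1 g (Ct (db g)) hg hCt).2.2.2.2.1 z).1
    rw [hE, this, hdbCt]
    simp
  have hEdiff : Differentiable ℂ E := by
    intro z
    have h1 : DifferentiableAt ℝ E z := (hEsm.differentiable (by simp)) z
    exact (hA8 E z h1 (hdbE z)).1
  obtain ⟨C', hC', hb⟩ := hCTG R (db g) hR hSc
  have hgrowE : ∀ z, ‖E z‖ ≤ (C + C') * (1 + ‖z‖) ^ (n - 1) := by
    intro z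
    have h1 : (1 : ℝ) ≤ 1 + ‖z‖ := by linarith [norm_nonneg z]
    have h2 : (1 : ℝ) ≤ (1 + ‖z‖) ^ (n - 1) := one_le_pow₀ h1
    have h3 : ‖Ct (db g) z‖ ≤ C' := by
      refine (hb z).1.trans ?_
      rw [div_le_iff₀ (by linarith)]
      nlinarith
    calc ‖E z‖ ≤ ‖g z‖ + ‖Ct (db g) z‖ := norm_sub_le _ _
      _ ≤ C * (1 + ‖z‖) ^ (n - 1) + C' * (1 + ‖z‖) ^ (n - 1) := by
          refine add_le_add (hgrow z) (h3.trans ?_)
          nlinarith
      _ = (C + C') * (1 + ‖z‖) ^ (n - 1) := by ring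
  have hom : om n * (starRingEnd ℂ) (om n) = 1 := by
    rw [Complex.mul_conj, Complex.normSq_eq_norm_sq, REP_om]
    simp
  have hdbsym : ∀ z, db g (om n * z) = om n * db g z := by
    intro z
    have h1 := (hA4 (om n) g hg).2.1 z
    have h2 : (fun z => g (om n * z)) = g := by
      funext w
      exact hsym w
    rw [h2] at h1
    rw [h1]
    rw [← mul_assoc, hom, one_mul]
  have hCtsym : ∀ z, Ct (db g) (om n * z) = Ct (db g) z := (hROT n hn).2 R (db g) hSc hdbsym
  have hEsym : ∀ z, E (om n * z) = E z := by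
    intro z
    simp only [hE, hsym, hCtsym]
  have hconst := hLIO n E (C + C') hn hEdiff hgrowE hEsym
  refine ⟨E 0, ?_⟩
  intro z
  rw [← hconst z]
  simp only [hE]
  ring

end NLS
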